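import Mathlib
import Pool.Agent.X173.AR

/-!
# Algebraic recurrence does not pass to subgroups of finite index

Let `A` be the direct sum of countably many copies of `ℤ` and `G = A ⋊ {±1}` its generalised
dihedral group. All elements of `G` outside the subgroup `A` of index two are involutions. Hence the
semigroup generated by the tail of a nondegenerate random walk on `G` is closed under inverses, and
it is a group containing all the increments that occur infinitely often, i.e. it is `G`. So `G` is
algebraically recurrent, but `A` is not.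
-/

set_option autoImplicit false

namespace Pool.Agent.Results.MP_7faad7_pr.IndexTwo

open MeasureTheory Finset Pool.Agent.X173.AR
open scoped ENNReal

/-! ### Every increment occurs infinitely often -/

section often

variable {G : Type} (μ : PMF G)

local instance : MeasurableSpace G := ⊤

local instance : DiscreteMeasurableSpace G := ⟨fun _ => trivial⟩

lemma ae_exists (s : G) (hs : s ∈ μ.support) (n : ℕ) :
    ∀ᵐ ω ∂(steps μ), ∃ i, n ≤ i ∧ ω i = s := by
  have hμs : μ.toMeasure {s}ᶜ < 1 := by
    rw [prob_compl_eq_one_sub MeasurableSet.of_discrete,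
      PMF.toMeasure_apply_singleton _ _ MeasurableSet.of_discrete]
    exact ENNReal.sub_lt_self ENNReal.one_ne_top one_ne_zero ((PMF.mem_support_iff _ _).1 hs)
  have h0 : ∀ K : ℕ, (steps μ) {ω | ¬ ∃ i, n ≤ i ∧ ω i = s} ≤ (μ.toMeasure {s}ᶜ) ^ K := by
    intro K
    have h1 : {ω : ℕ → G | ¬ ∃ i, n ≤ i ∧ ω i = s} ⊆
        Set.pi ((Finset.Ico n (n + K) : Finset ℕ) : Set ℕ) (fun _ => {s}ᶜ) := by
      intro ω hω i hi
      simp only [coe_Ico, Set.mem_Ico] at hi
      intro h
      exact hω ⟨i, hi.1, h⟩
    refine (measure_mono h1).trans ?_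
    change (Measure.infinitePi (fun _ : ℕ => μ.toMeasure)) _ ≤ _
    rw [Measure.infinitePi_pi _ (fun _ _ => MeasurableSet.of_discrete), prod_const, Nat.card_Ico]
    simp
  have h2 : Filter.Tendsto (fun K => (μ.toMeasure {s}ᶜ) ^ K) Filter.atTop (nhds 0) :=
    ENNReal.tendsto_pow_atTop_nhds_zero_of_lt_one hμs
  exact le_antisymm (ge_of_tendsto' h2 h0) zero_le

lemma ae_often [Countable G] :
    ∀ᵐ ω ∂(steps μ), ∀ s ∈ μ.support, ∀ n, ∃ i, n ≤ i ∧ ω i = s := by
  rw [ae_all_iff]
  intro s
  by_cases hs : s ∈ μ.support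
  · have : ∀ᵐ ω ∂(steps μ), ∀ n, ∃ i, n ≤ i ∧ ω i = s := by
      rw [ae_all_iff]
      exact ae_exists μ s hs
    filter_upwards [this] with ω hω _
    exact hω
  · exact Filter.Eventually.of_forall (fun _ h => absurd h hs)

end often

/-! ### Groups with an index two subgroup whose complement consists of involutions -/

section involutions

variable {G : Type} [Group G]

lemma walk_succ (ω : ℕ → G) (n : ℕ) : walk ω (n + 1) = walk ω n * ω n := by
  simp [walk, List.range_succ]

lemma semi_eq_top {H : Subgroup G} (hinv : ∀ g, g ∉ H → g * g = 1)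
    (hne : H ≠ ⊤) (μ : PMF G) (hμ : Admissible G μ)
    (ω : ℕ → G) (hω : ∀ s ∈ μ.support, ∀ n, ∃ i, n ≤ i ∧ ω i = s) (n : ℕ) :
    semi ω n = ⊤ := by
  -- an element of the support outside `H`
  obtain ⟨s, hs, hsH⟩ : ∃ s ∈ μ.support, s ∉ H := by
    by_contra hcon
    push Not at hcon
    apply hne
    rw [eq_top_iff, ← hμ.2, Subgroup.closure_le]
    exact hcon
  have hmem : ∀ m, n ≤ m → walk ω m ∈ semi ω n := fun m hm =>
    Subsemigroup.subset_closure ⟨m, hm, rfl⟩
  -- some position outside `H`
  obtain ⟨m0, hm0, hτ⟩ : ∃ m, n ≤ m ∧ walk ω m ∉ H := by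
    obtain ⟨i, hi, his⟩ := hω s hs n
    by_cases h : walk ω i ∈ H
    · refine ⟨i + 1, by omega, ?_⟩
      rw [walk_succ, his]
      intro h2
      exact hsH ((Subgroup.mul_mem_cancel_left H h).1 h2)
    · exact ⟨i, hi, h⟩
  set τ := walk ω m0 with hτdef
  have hτS : τ ∈ semi ω n := hmem m0 hm0
  have hττ : τ * τ = 1 := hinv τ hτ
  have h1S : (1 : G) ∈ semi ω n := by
    rw [← hττ]
    exact mul_mem hτS hτS
  -- inverses of positions
  have hinvS : ∀ m, n ≤ m → (walk ω m)⁻¹ ∈ semi ω n := by
    intro m hm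
    by_cases h : walk ω m ∈ H
    · have h2 : τ * walk ω m ∉ H := fun h3 => hτ ((Subgroup.mul_mem_cancel_right H h).1 h3)
      have h3 := hinv _ h2
      have h5 : τ * walk ω m * τ * walk ω m = 1 := by
        rw [mul_assoc (τ * walk ω m) τ]
        exact h3
      rw [inv_eq_of_mul_eq_one_left h5]
      exact mul_mem (mul_mem hτS (hmem m hm)) hτS
    · rw [inv_eq_of_mul_eq_one_left (hinv _ h)]
      exact hmem m hm
  have hsupp : ∀ s ∈ μ.support, s ∈ semi ω n := by
    intro s hs
    obtain ⟨i, hi, his⟩ := hω s hs n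
    have : s = (walk ω i)⁻¹ * walk ω (i + 1) := by
      rw [walk_succ, his, inv_mul_cancel_left]
    rw [this]
    exact mul_mem (hinvS i hi) (hmem (i + 1) (by omega))
  have hsymm : ∀ s ∈ μ.support, s⁻¹ ∈ μ.support := by
    intro s hs
    rw [PMF.mem_support_iff] at hs ⊢
    rwa [← hμ.1 s]
  rw [eq_top_iff]
  intro g _
  have hg : g ∈ Subgroup.closure μ.support := by rw [hμ.2]; trivial
  suffices h : g ∈ semi ω n ∧ g⁻¹ ∈ semi ω n from h.1
  induction hg using Subgroup.closure_induction with
  | mem x hx => exact ⟨hsupp x hx, hsupp _ (hsymm x hx)⟩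
  | one => exact ⟨h1S, by rwa [inv_one]⟩
  | mul x y _ _ hx hy =>
    refine ⟨mul_mem (hx trivial).1 (hy trivial).1, ?_⟩
    rw [mul_inv_rev]
    exact mul_mem (hy trivial).2 (hx trivial).2
  | inv x _ hx => exact ⟨(hx trivial).2, by rw [inv_inv]; exact (hx trivial).1⟩

/-- A countable group with a proper subgroup `H` such that all elements outside `H` are
involutions is algebraically recurrent. -/
theorem groupAR_of_involutions [Countable G] (H : Subgroup G) (hinv : ∀ g, g ∉ H → g * g = 1)
    (hne : H ≠ ⊤) : GroupAR G := by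
  intro μ hμ n _
  filter_upwards [ae_often μ] with ω hω
  exact semi_eq_top hinv hne μ hμ ω hω n

end involutions

/-! ### Generalised dihedral groups -/

/-- The generalised dihedral group `A ⋊ {±1}` of an abelian group `A`: pairs `(v, e)` with product
`(v, e) (w, f) = (v + e w, e f)`. -/
@[ext] structure Dih (A : Type) where
  v : A
  e : ℤˣ

namespace Dih

variable {A : Type} [AddCommGroup A]

instance : Mul (Dih A) := ⟨fun x y => ⟨x.v + (x.e : ℤ) • y.v, x.e * y.e⟩⟩
instance : One (Dih A) := ⟨⟨0, 1⟩⟩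
instance : Inv (Dih A) := ⟨fun x => ⟨-((x.e : ℤ) • x.v), x.e⟩⟩

@[simp] lemma mul_v (x y : Dih A) : (x * y).v = x.v + (x.e : ℤ) • y.v := rfl
@[simp] lemma mul_e (x y : Dih A) : (x * y).e = x.e * y.e := rfl
@[simp] lemma one_v : (1 : Dih A).v = 0 := rfl
@[simp] lemma one_e : (1 : Dih A).e = 1 := rfl
@[simp] lemma inv_v (x : Dih A) : (x⁻¹).v = -((x.e : ℤ) • x.v) := rfl
@[simp] lemma inv_e (x : Dih A) : (x⁻¹).e = x.e := rfl

instance : Group (Dih A) where
  mul_assoc x y z := by
    ext
    · simp only [mul_v, mul_e, Units.val_mul, smul_add, mul_smul, add_assoc]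
    · simp [mul_assoc]
  one_mul x := by ext <;> simp
  mul_one x := by ext <;> simp
  inv_mul_cancel x := by
    ext
    · simp
    · simp [← sq]

/-- the projection to `{±1}` -/
def sgn : Dih A →* ℤˣ where
  toFun x := x.e
  map_one' := rfl
  map_mul' _ _ := rfl

/-- the subgroup `A` of index two -/
def rot (A : Type) [AddCommGroup A] : Subgroup (Dih A) := (sgn (A := A)).ker

lemma mem_rot (x : Dih A) : x ∈ rot A ↔ x.e = 1 := Iff.rfl

lemma notMem_rot (x : Dih A) : x ∉ rot A ↔ x.e = -1 := by
  rw [mem_rot]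
  rcases Int.units_eq_one_or x.e with h | h
  · rw [h]; decide
  · rw [h]; decide

lemma index_rot : (rot A).index = 2 := by
  rw [rot, Subgroup.index_ker]
  have : (sgn (A := A)).range = ⊤ := by
    rw [MonoidHom.range_eq_top]
    intro e
    exact ⟨⟨0, e⟩, rfl⟩
  rw [this]
  have h2 : Nat.card (⊤ : Subgroup ℤˣ) = Nat.card ℤˣ := Nat.card_congr Subgroup.topEquiv.toEquiv
  rw [h2]
  simp

instance [Countable A] : Countable (Dih A) := by
  have : Function.Injective (fun x : Dih A => (x.v, x.e)) := by
    intro x y h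
    simp only [Prod.mk.injEq] at h
    exact Dih.ext h.1 h.2
  exact this.countable

/-- Generalised dihedral groups are algebraically recurrent. -/
theorem groupAR [Countable A] : GroupAR (Dih A) := by
  apply groupAR_of_involutions (rot A)
  · intro g hg
    rw [notMem_rot] at hg
    ext
    · simp [hg]
    · simp [hg]
  · intro h
    have h1 := index_rot (A := A)
    rw [h, Subgroup.index_top] at h1
    omega

/-- `A` as the index two subgroup -/
def rotEquiv (A : Type) [AddCommGroup A] : Multiplicative A ≃* rot A where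
  toFun a := ⟨⟨Multiplicative.toAdd a, 1⟩, rfl⟩
  invFun x := Multiplicative.ofAdd x.1.v
  left_inv a := rfl
  right_inv x := Subtype.ext (Dih.ext rfl ((mem_rot x.1).1 x.2).symm)
  map_mul' a b := by
    apply Subtype.ext
    ext
    · simp
    · simp

end Dih

/-- There are a countable algebraically recurrent group `G` and a subgroup `H` of index two in `G`
(so that `H` has finite index) which is not algebraically recurrent. -/
theorem result : ∃ (G : Type) (_ : Group G) (_ : Countable G) (H : Subgroup G),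
    GroupAR G ∧ H.index = 2 ∧ ¬ GroupAR H := by
  refine ⟨Dih (ℤ →₀ ℤ), inferInstance, inferInstance, Dih.rot _, Dih.groupAR, Dih.index_rot, ?_⟩
  intro h
  obtain ⟨μ, h1, h2⟩ := exists_not_pairAR (Dih.rotEquiv (ℤ →₀ ℤ))
  exact h2 (h μ h1)

end Pool.Agent.Results.MP_7faad7_pr.IndexTwo
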